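import Pool.Agent.NL.StmtsM

/-!
# Squad NLO, row RCN (helper55): the negation of `Rch`
-/

set_option autoImplicit false

open MeasureTheory Filter Topology Set

namespace Pool.Agent.NL.H55

open Pool.Agent.NL

theorem rch_mono {X : Type} [NormedAddCommGroup X] [NormedSpace ℝ X] {G : ℝ → Z}
    {Ψ : X →ₗᵢ[ℝ] Z} {a : ℝ} {W' : Finset ℝ} (h : Rch G Ψ a W') :
    ∀ W : Finset ℝ, W' ⊆ W → Rch G Ψ a W := by
  induction h with
  | stop W' p hs hp hr =>
    intro W hW
    exact Rch.stop W p (hs.trans hW) hp hr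
  | split W' s hs S hS h ih =>
    intro W hW
    exact Rch.split W s (hW hs) S hS fun x hx => ih x hx _ (Finset.insert_subset_insert x hW)

theorem rcn : RcnStmt := by
  intro X _ _ G Ψ a W h
  refine ⟨fun p hs hp => ?_, fun s hs => ?_, fun W' hW' h' => h (rch_mono h' W hW')⟩
  · by_contra hr
    exact h (Rch.stop W p hs hp (not_le.1 hr))
  · by_contra hf
    exact h (Rch.split W s hs {x | Rch G Ψ a (insert x W)} hf fun x hx => hx)

end Pool.Agent.NL.H55
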